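import Mathlib
import Pool.Agent.R457.CP.Defs
import Pool.Agent.R457.CP.Path
import Pool.Agent.R457.CP.Rot
import Pool.Agent.R457.CP.Main
import Pool.Agent.R457.CP.K
import Pool.Agent.R457.CP.F
import Pool.Agent.R457.CP.G
import Pool.Agent.R457.CP.Num
import Pool.Agent.R457.CP.CertP
import Pool.Agent.R457.CP.CertPP

/-!
# MP_1a41ac_nt, Q1: the conjecture is true

For every finite field `F` with `q > 7` elements there is a circular permutation
`b_1, ..., b_{q-1}` of `F^×` such that all the elements `b_i b_{i+1} + 1` (indices cyclic) are
primitive elements of `F`.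

* `q ≡ 3 mod 4`: take a primitive `x` with `x - 1` a nonsquare (it exists by Jacobi sums except
  for four small `q`, treated by hand); the two nonsquares `x - 1` and `1/x - 1` have ratio
  `-1/x` of order `(q-1)/2`, and alternating them closes up.
* `q ≡ 1 mod 4` or `q` even: any primitive `x` gives in the same way a Hamiltonian path
  (`R457.CP.IsPath`); it is closed by two rotations and a mixing lemma (character sums) whenever
  `4·4^ω(q-1)·q < (φ(q-1)-2)²`; the remaining `q` are enumerated (`num_class`) and have explicit
  certificates.
-/

namespace Pool.Agent.Results.MP_1a41ac_nt.CircularPrimitive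

open R457.CP

theorem hasCyc_all (F : Type*) [Field F] [Fintype F] (h7 : 7 < Fintype.card F) : HasCyc F := by
  by_cases h4 : Fintype.card F % 4 = 3
  · by_cases hs : Fintype.card F = 11 ∨ Fintype.card F = 31 ∨ Fintype.card F = 43 ∨
      Fintype.card F = 211
    · obtain ⟨x, hx, hns⟩ := cert3 F hs
      exact hasCyc_three h4 hx hns
    · push Not at hs
      obtain ⟨x, hx, hns⟩ := exists_prim_nonsquare F h4 h7 hs.1 hs.2.1 hs.2.2.1 hs.2.2.2
      exact hasCyc_three h4 hx hns
  · have h : Fintype.card F % 4 = 1 ∨ Fintype.card F % 2 = 0 := by omega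
    by_cases hc : Crit (Fintype.card F - 1)
    · obtain ⟨v, hv⟩ : ∃ v : ℕ → F, IsPath v := by
        rcases h with h | h
        · exact exists_path_one h
        · exact exists_path_even h (by omega)
      exact hasCyc_of_path hv (by omega)
        (fun X Y hX hY hXY => mixing_core (by omega) (prim_expansion F (by omega)) X Y hX hY hXY) hc
    · rcases num_class (Fintype.card F) (FiniteField.isPrimePow_card F) h hc with hP | hPP | hE
      · have h1 : ∀ q ∈ excP, q % 4 = 1 := by decide +kernel
        have h41 := h1 _ hP
        by_cases hs : Fintype.card F = 13 ∨ Fintype.card F = 61 ∨ Fintype.card F = 181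
        · exact cyc_special F hs
        · push Not at hs
          obtain ⟨c, h2, h3⟩ := certP F hP (by omega) hs.1 hs.2.1 hs.2.2
          exact hasCyc_of_cert h41 h2 h3
      · have h1 : ∀ q ∈ excPP, q % 4 = 1 := by decide +kernel
        have h41 := h1 _ hPP
        by_cases hs : Fintype.card F = 25
        · exact cyc25 F hs
        · obtain ⟨c, h2, h3⟩ := certPP F hPP hs
          exact hasCyc_of_cert h41 h2 h3
      · have h1 : ∀ q ∈ excE, q % 2 = 0 := by decide +kernel
        have h20 := h1 _ hE
        by_cases hs : Fintype.card F = 16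
        · exact cyc16 F hs
        · obtain ⟨y, hy, hy'⟩ := certE F hE h7 hs
          refine hasCyc_of_certE h20 hy ?_ hy'
          rintro rfl
          exact not_prim_one (by omega) hy

/-- **MP_1a41ac_nt, Q1 (true).** For every finite field `F` with more than `7` elements there is
a circular permutation `b` of `F^×`, indexed by `ZMod (q - 1)`, such that every
`b i * b (i + 1) + 1` is a primitive element of `F` (nonzero, of multiplicative order `q - 1`). -/
theorem result (F : Type*) [Field F] [Fintype F] (hq : 7 < Fintype.card F) :
    ∃ b : ZMod (Fintype.card F - 1) ≃ Fˣ, ∀ i,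
      ((b i : F) * (b (i + 1) : F) + 1 ≠ 0) ∧
      orderOf ((b i : F) * (b (i + 1) : F) + 1) = Fintype.card F - 1 :=
  circular_of_hasCyc (by omega) (hasCyc_all F hq)

end Pool.Agent.Results.MP_1a41ac_nt.CircularPrimitive
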